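import Pool.Agent.MHP.StmtsS

/-!
# MHP, STF: stars
-/

set_option autoImplicit false

open scoped Classical

namespace Pool.Agent.MHP.H64

open Pool.Agent.MHP Pool.Agent.HMT

theorem star_adj {n : ℕ} (i : Fin n) : (star n).Adj none (some i) :=
  ⟨by simp, Or.inl rfl⟩

theorem star_conn (n : ℕ) : (star n).Connected := by
  rw [SimpleGraph.connected_iff_exists_forall_reachable]
  refine ⟨none, fun w => ?_⟩
  rcases w with _ | i
  · exact SimpleGraph.Reachable.refl _
  · exact (star_adj i).reachable

theorem star_col (n : ℕ) : (star n).Colorable 2 := by
  have c : (star n).Coloring Bool := SimpleGraph.Coloring.mk (fun v => v.isNone) (by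
    intro v w h
    rcases v with _ | i <;> rcases w with _ | j
    · exact absurd rfl h.1
    · simp
    · simp
    · rcases h.2 with h2 | h2 <;> simp at h2)
  have h := c.colorable
  simpa using h

theorem star_edges (n : ℕ) (X : Set (Option (Fin n))) :
    Nat.card ((star n).induce X).edgeSet ≤ Nat.card X - 1 := by
  by_cases h0 : none ∈ X
  · have h1 : Nat.card {x : X // x ≠ ⟨none, h0⟩} < Nat.card X :=
      Finite.card_subtype_lt (x := (⟨none, h0⟩ : X)) (by simp)
    have hadj : ∀ x : {x : X // x ≠ ⟨none, h0⟩},
        ((star n).induce X).Adj ⟨none, h0⟩ x.1 := by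
      intro x
      show (star n).Adj none x.1.1
      refine ⟨?_, Or.inl rfl⟩
      intro h
      exact x.2 (Subtype.ext h.symm)
    let f : {x : X // x ≠ ⟨none, h0⟩} → ((star n).induce X).edgeSet := fun x =>
      ⟨s(⟨none, h0⟩, x.1), hadj x⟩
    have hf : Function.Surjective f := by
      rintro ⟨e, he⟩
      induction e with
      | _ a b =>
        have hab : ((star n).induce X).Adj a b := he
        have hab' : (star n).Adj a.1 b.1 := hab
        rcases hab'.2 with h | h
        · refine ⟨⟨b, ?_⟩, ?_⟩
          · intro hb
            exact hab'.1 (by rw [h, hb])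
          · apply Subtype.ext
            show s(⟨none, h0⟩, b) = s(a, b)
            have : a = ⟨none, h0⟩ := Subtype.ext h
            rw [this]
        · refine ⟨⟨a, ?_⟩, ?_⟩
          · intro ha
            exact hab'.1 (by rw [h, ha])
          · apply Subtype.ext
            show s(⟨none, h0⟩, a) = s(a, b)
            have : b = ⟨none, h0⟩ := Subtype.ext h
            rw [this, Sym2.eq_swap]
    have h2 := Nat.card_le_card_of_surjective f hf
    omega
  · have h1 : ((star n).induce X).edgeSet = ∅ := by
      rw [Set.eq_empty_iff_forall_notMem]
      intro e he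
      induction e with
      | _ a b =>
        have hab : (star n).Adj a.1 b.1 := he
        rcases hab.2 with h | h
        · exact h0 (h ▸ a.2)
        · exact h0 (h ▸ b.2)
    rw [h1]
    simp

theorem star_card (n : ℕ) : Nat.card (star n).edgeSet = n := by
  let f : Fin n → (star n).edgeSet := fun i => ⟨s(none, some i), star_adj i⟩
  have hf : Function.Bijective f := by
    constructor
    · intro i j h
      have h1 : s((none : Option (Fin n)), some i) = s(none, some j) := congrArg Subtype.val h
      rw [Sym2.eq_iff] at h1
      rcases h1 with h1 | h1
      · exact Option.some_injective _ h1.2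
      · exact absurd h1.1 (by simp)
    · rintro ⟨e, he⟩
      induction e with
      | _ a b =>
        have hab : (star n).Adj a b := he
        rcases hab.2 with h | h
        · subst h
          rcases b with _ | i
          · exact absurd rfl hab.1
          · exact ⟨i, rfl⟩
        · subst h
          rcases a with _ | i
          · exact absurd rfl hab.1
          · refine ⟨i, ?_⟩
            apply Subtype.ext
            show s((none : Option (Fin n)), some i) = s(some i, none)
            rw [Sym2.eq_swap]
  have h := Nat.card_eq_of_bijective f hf
  rw [← h, Nat.card_eq_fintype_card, Fintype.card_fin]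

theorem stf : StfStmt := by
  intro n
  refine ⟨star_conn n, fun g => Or.inr ⟨star_col n, fun X _ => ?_⟩, star_card n⟩
  have h := star_edges n X
  calc g * Nat.card ((star n).induce X).edgeSet ≤ g * (Nat.card X - 1) :=
        Nat.mul_le_mul_left g h
    _ ≤ (g + 1) * (Nat.card X - 1) := Nat.mul_le_mul_right _ (Nat.le_succ g)

end Pool.Agent.MHP.H64
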